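import Pool.Agent.J4H27.GC.Defs
import Pool.Agent.H437R2.Man.MWCan

/-!
# Project GC of helper27, job EMB (helper57)
-/

set_option autoImplicit false

namespace Pool.Agent.J4H57.GC

open Pool.Agent.TH942 Pool.Agent.H437R2.Man

theorem t_EMB : Pool.Agent.J4H27.GC.S_EMB := by
  intro K _ _ _ a b hD
  obtain ⟨C, -, hC⟩ := spar_law hD
  obtain ⟨q, C', hq1, hq2, hq3⟩ := MW.canon (fun P : SPt a b => sht P) C
    (fun P => sht_nonneg P) hC
  obtain ⟨n, ψ, hψ⟩ := MW.embed (sfg hD) q hq2 hq3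
  refine ⟨n, ψ, C', fun P => ?_⟩
  rw [hψ P]
  exact hq1 P

end Pool.Agent.J4H57.GC
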