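import Pool.Agent.J4H27.GC.Defs

/-!
# Project GC of helper27, job GEN (helper57)
-/

set_option autoImplicit false

open MvPolynomial

namespace Pool.Agent.J4H57.GC

/-- the case of the variables `Fin n` -/
theorem gen_fin (F : Type) [Field F] : ∀ (n : ℕ) (S : Fin n → Set (F × F)),
    (∀ i (A : Set F), A.Finite → ∃ p ∈ S i, p.1 ∉ A ∧ p.2 ∉ A) →
    ∀ P : MvPolynomial (Fin n) F, P ≠ 0 → ∃ p : Fin n → F × F, (∀ i, p i ∈ S i) ∧
      ∀ e : Fin n → Bool, eval (fun i => if e i then (p i).1 else (p i).2) P ≠ 0 := by
  classical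
  intro n
  induction n with
  | zero =>
    intro S _ P hP
    refine ⟨fun i => i.elim0, fun i => i.elim0, fun e => ?_⟩
    intro h
    apply hP
    obtain ⟨c, rfl⟩ : ∃ c, P = C c := ⟨_, MvPolynomial.eq_C_of_isEmpty P⟩
    rw [eval_C] at h
    rw [h, C_0]
  | succ n ih =>
    intro S hS P hP
    have hQ : finSuccEquiv F n P ≠ 0 := by
      intro h
      exact hP ((finSuccEquiv F n).injective (by rw [h, map_zero]))
    set Q := finSuccEquiv F n P with hQdef
    have hfin : {a : F | (C a : MvPolynomial (Fin n) F) ∈ Q.roots.toFinset}.Finite := by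
      apply Set.Finite.preimage
      · exact (C_injective (Fin n) F).injOn
      · exact Q.roots.toFinset.finite_toSet
    obtain ⟨p0, hp0, h1, h2⟩ := hS 0 _ hfin
    have hne : ∀ a : F, a ∉ {a : F | (C a : MvPolynomial (Fin n) F) ∈ Q.roots.toFinset} →
        Polynomial.eval (C a) Q ≠ 0 := by
      intro a ha h
      apply ha
      show C a ∈ Q.roots.toFinset
      rw [Multiset.mem_toFinset, Polynomial.mem_roots hQ]
      exact h
    obtain ⟨p', hp', he'⟩ := ih (fun i => S i.succ) (fun i => hS i.succ)
      (Polynomial.eval (C p0.1) Q * Polynomial.eval (C p0.2) Q)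
      (mul_ne_zero (hne _ h1) (hne _ h2))
    refine ⟨Fin.cons p0 p', ?_, ?_⟩
    · intro i
      refine Fin.cases ?_ (fun i => ?_) i
      · simpa using hp0
      · simpa using hp' i
    · intro e
      have h3 := he' (fun i => e i.succ)
      rw [map_mul] at h3
      have key : ∀ (a : F) (x : Fin n → F), eval (Fin.cons a x : Fin (n + 1) → F) P =
          eval x (Polynomial.eval (C a) Q) := by
        intro a x
        rw [eval_eq_eval_mv_eval', ← hQdef]
        have h5 := Polynomial.hom_eval₂ Q (RingHom.id _) (eval x) (C a)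
        rw [eval_C, RingHom.comp_id] at h5
        rw [Polynomial.eval_map, ← h5, Polynomial.eval₂_id]
      have h4 : (fun i => if e i = true then ((Fin.cons p0 p' : Fin (n + 1) → F × F) i).1
          else ((Fin.cons p0 p' : Fin (n + 1) → F × F) i).2) =
          Fin.cons (if e 0 = true then p0.1 else p0.2)
            (fun i : Fin n => if e i.succ = true then (p' i).1 else (p' i).2) := by
        funext i
        refine Fin.cases ?_ (fun i => ?_) i
        · simp
        · simp
      rw [h4, key]
      by_cases h0 : e 0 = true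
      · rw [if_pos h0]
        exact left_ne_zero_of_mul h3
      · rw [if_neg h0]
        exact right_ne_zero_of_mul h3

theorem t_GEN : Pool.Agent.J4H27.GC.S_GEN := by
  intro F _ σ _ _ S hS P hP
  set ε := Fintype.equivFin σ
  have hP' : rename ε P ≠ 0 := by
    intro h
    exact hP (rename_injective ε ε.injective (by rw [h, map_zero]))
  obtain ⟨p, hp, he⟩ := gen_fin F (Fintype.card σ) (fun i => S (ε.symm i))
    (fun i => hS (ε.symm i)) (rename ε P) hP'
  refine ⟨fun i => p (ε i), fun i => ?_, fun e => ?_⟩
  · simpa using hp (ε i)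
  · have h1 := he (fun i => e (ε.symm i))
    rw [eval_rename] at h1
    have h2 : ((fun i => if e (ε.symm i) = true then (p i).1 else (p i).2) ∘ ε) =
        fun i => if e i = true then (p (ε i)).1 else (p (ε i)).2 := by
      funext i
      simp
    rw [h2] at h1
    exact h1

end Pool.Agent.J4H57.GC
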