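import Pool.Agent.J4H27.GC.Defs

/-!
# Project GC of helper27, job SEL (helper57)
-/

set_option autoImplicit false

open Filter Topology

namespace Pool.Agent.J4H57.GC

/-- the binary logarithm of the length -/
theorem exists_ell (x : ℕ → ℝ) (hx : ∀ n, 0 ≤ x n) : ∃ ℓ : ℕ → ℕ,
    (∀ n, 1 ≤ x n → (2 : ℝ) ^ ℓ n ≤ x n) ∧ ∀ n, x n < 2 * (2 : ℝ) ^ ℓ n := by
  refine ⟨fun n => Nat.log 2 ⌊x n⌋₊, ?_, ?_⟩
  · intro n hn
    have h1 : ⌊x n⌋₊ ≠ 0 := by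
      rw [Ne, Nat.floor_eq_zero, not_lt]; exact hn
    have h2 : 2 ^ Nat.log 2 ⌊x n⌋₊ ≤ ⌊x n⌋₊ := Nat.pow_log_le_self 2 h1
    calc (2 : ℝ) ^ Nat.log 2 ⌊x n⌋₊ = ((2 ^ Nat.log 2 ⌊x n⌋₊ : ℕ) : ℝ) := by push_cast; rfl
      _ ≤ (⌊x n⌋₊ : ℝ) := by exact_mod_cast h2
      _ ≤ x n := Nat.floor_le (hx n)
  · intro n
    have h2 : ⌊x n⌋₊ < 2 ^ (Nat.log 2 ⌊x n⌋₊ + 1) := Nat.lt_pow_succ_log_self (by norm_num) _
    have h3 : x n < (2 ^ (Nat.log 2 ⌊x n⌋₊ + 1) : ℕ) := (Nat.floor_lt' (by positivity)).1 h2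
    push_cast at h3
    rw [pow_succ] at h3
    linarith

/-- indices with large gaps -/
theorem exists_seq (g : ℕ → ℕ) (J j0 R : ℕ) (hj0 : J ≤ j0) (h : ∀ M : ℕ, ∃ j, J ≤ j ∧ M ≤ g j) :
    ∃ t : ℕ → ℕ, t 0 = j0 ∧ (∀ i, J ≤ t i) ∧ ∀ i, g (t i) + R ≤ g (t (i + 1)) := by
  choose nx h1 h2 using h
  refine ⟨fun i => Nat.rec j0 (fun _ x => nx (g x + R)) i, rfl, ?_, ?_⟩
  · intro i
    cases i with
    | zero => exact hj0
    | succ i => exact h1 _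
  · intro i
    exact h2 _

/-- passing to the multiples -/
theorem scale_le {E : Type} [NormedAddCommGroup E] [NormedSpace ℝ E] (x y : E) {a b : ℕ} (hab : b ≤ a)
    {κ U : ℝ} (hκ : 0 < κ) (hU : (2 : ℝ) ^ b ≤ U)
    (hxy : ‖((2 : ℝ) ^ a)⁻¹ • x - ((2 : ℝ) ^ b)⁻¹ • y‖ ≤ κ) :
    ‖x - (2 : ℝ) ^ (a - b) • y‖ ≤ κ * 2 ^ (a - b) * U := by
  have hpA : (0 : ℝ) < 2 ^ a := by positivity
  have hpB : (0 : ℝ) < 2 ^ b := by positivity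
  have hpk : (2 : ℝ) ^ (a - b) * 2 ^ b = 2 ^ a := by
    rw [← pow_add, Nat.sub_add_cancel hab]
  have e1 : x - (2 : ℝ) ^ (a - b) • y =
      (2 : ℝ) ^ a • (((2 : ℝ) ^ a)⁻¹ • x - ((2 : ℝ) ^ b)⁻¹ • y) := by
    rw [smul_sub, smul_smul, smul_smul, mul_inv_cancel₀ hpA.ne', one_smul]
    congr 2
    rw [← hpk, mul_assoc, mul_inv_cancel₀ hpB.ne', mul_one]
  rw [e1, norm_smul, Real.norm_of_nonneg hpA.le]
  calc (2 : ℝ) ^ a * ‖((2 : ℝ) ^ a)⁻¹ • x - ((2 : ℝ) ^ b)⁻¹ • y‖ ≤ (2 : ℝ) ^ a * κ :=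
        mul_le_mul_of_nonneg_left hxy hpA.le
    _ = (2 : ℝ) ^ (a - b) * 2 ^ b * κ := by rw [hpk]
    _ ≤ (2 : ℝ) ^ (a - b) * U * κ := by gcongr
    _ = κ * 2 ^ (a - b) * U := by ring

theorem t_SEL : Pool.Agent.J4H27.GC.S_SEL := by
  intro p q u v b hb hvu hu m κ hκ R H
  obtain ⟨ℓ, hlo, hhi⟩ := exists_ell (fun n => ‖u n‖) (fun n => norm_nonneg _)
  -- a convergent subsequence
  set w : ℕ → EuclideanSpace ℝ (Fin p) × EuclideanSpace ℝ (Fin q) := fun n =>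
    (((2 : ℝ) ^ ℓ n)⁻¹ • u n, ((2 : ℝ) ^ ℓ n)⁻¹ • v n) with hw
  have hbd : ∀ n, w n ∈ Metric.closedBall (0 : EuclideanSpace ℝ (Fin p) × EuclideanSpace ℝ (Fin q))
      (2 + 2 * b) := by
    intro n
    have h0 : (0 : ℝ) < 2 ^ ℓ n := by positivity
    have h1 : ‖((2 : ℝ) ^ ℓ n)⁻¹ • u n‖ ≤ 2 := by
      rw [norm_smul, norm_inv, Real.norm_of_nonneg h0.le, inv_mul_le_iff₀ h0]
      linarith [hhi n]
    have h2 : ‖((2 : ℝ) ^ ℓ n)⁻¹ • v n‖ ≤ 2 * b := by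
      rw [norm_smul, norm_inv, Real.norm_of_nonneg h0.le, inv_mul_le_iff₀ h0]
      have := hvu n
      have := hhi n
      nlinarith
    rw [mem_closedBall_zero_iff, hw]
    simp only
    rw [Prod.norm_def]
    exact max_le (h1.trans (by linarith)) (h2.trans (by linarith))
  obtain ⟨w₀, -, φ, hφ, hlim⟩ := (isCompact_closedBall (0 : EuclideanSpace ℝ (Fin p) ×
    EuclideanSpace ℝ (Fin q)) (2 + 2 * b)).tendsto_subseq hbd
  have hev : ∀ᶠ j in atTop, dist (w (φ j)) w₀ < κ / 2 :=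
    hlim.eventually (Metric.ball_mem_nhds w₀ (by positivity))
  have hu' : Tendsto (fun j => ‖u (φ j)‖) atTop atTop := hu.comp hφ.tendsto_atTop
  have hev1 : ∀ᶠ j in atTop, 1 ≤ ‖u (φ j)‖ := hu'.eventually (eventually_ge_atTop 1)
  obtain ⟨J, hJ⟩ := eventually_atTop.1 (hev.and hev1)
  have hℓt : Tendsto (fun j => ℓ (φ j)) atTop atTop := by
    rw [tendsto_atTop]
    intro M
    filter_upwards [hu'.eventually (eventually_ge_atTop (2 * 2 ^ M : ℝ))] with j hj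
    have h1 := hhi (φ j)
    have h2 : (2 : ℝ) ^ M < 2 ^ ℓ (φ j) := by linarith
    exact (pow_lt_pow_iff_right₀ (by norm_num : (1 : ℝ) < 2)).1 h2 |>.le
  obtain ⟨j0, hj0, hj0H⟩ : ∃ j ≥ J, H ≤ ‖u (φ j)‖ := by
    obtain ⟨j, h1, h2⟩ := ((hu'.eventually (eventually_ge_atTop H)).and (eventually_ge_atTop J)).exists
    exact ⟨j, h2, h1⟩
  have hnext : ∀ M : ℕ, ∃ j, J ≤ j ∧ M ≤ ℓ (φ j) := by
    intro M
    obtain ⟨j, h1, h2⟩ := ((hℓt.eventually (eventually_ge_atTop M)).and (eventually_ge_atTop J)).exists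
    exact ⟨j, h2, h1⟩
  obtain ⟨t, ht0, htJ, hstep⟩ := exists_seq (fun j => ℓ (φ j)) J j0 R hj0 hnext
  have hmono : Monotone fun i => ℓ (φ (t i)) := monotone_nat_of_le_succ fun i =>
    (Nat.le_add_right _ _).trans (hstep i)
  have hgap : ∀ i j, i < j → ℓ (φ (t i)) + R ≤ ℓ (φ (t j)) := fun i j hij =>
    (hstep i).trans (hmono (Nat.succ_le_of_lt hij))
  refine ⟨fun i => φ (t i), fun i => ℓ (φ (t i)) - ℓ (φ (t 0)), ?_, ?_, ?_, ?_⟩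
  · exact Nat.sub_self _
  · show H ≤ ‖u (φ (t ((0 : Fin (m + 1)) : ℕ)))‖
    rw [Fin.val_zero, ht0]
    exact hj0H
  · intro i j hij
    have h1 := hgap i j hij
    have h2 : ℓ (φ (t 0)) ≤ ℓ (φ (t i)) := hmono (Nat.zero_le _)
    show ℓ (φ (t i)) - ℓ (φ (t 0)) + R ≤ ℓ (φ (t j)) - ℓ (φ (t 0))
    omega
  · intro i
    have hle : ℓ (φ (t 0)) ≤ ℓ (φ (t i)) := hmono (Nat.zero_le _)
    have hA1 := (hJ (t i) (htJ i)).1
    have hB1 := (hJ (t 0) (htJ 0)).1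
    have hB2 := (hJ (t 0) (htJ 0)).2
    have hd : dist (w (φ (t i))) (w (φ (t 0))) ≤ κ := by
      have := dist_triangle_right (w (φ (t i))) (w (φ (t 0))) w₀
      linarith
    have hB3 : (2 : ℝ) ^ ℓ (φ (t 0)) ≤ ‖u (φ (t 0))‖ := hlo _ hB2
    refine ⟨scale_le _ _ hle hκ hB3 ?_, scale_le _ _ hle hκ hB3 ?_⟩
    · have h1 : dist (w (φ (t i))).1 (w (φ (t 0))).1 ≤ κ := (le_max_left _ _).trans hd
      rw [dist_eq_norm] at h1
      exact h1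
    · have h1 : dist (w (φ (t i))).2 (w (φ (t 0))).2 ≤ κ := (le_max_right _ _).trans hd
      rw [dist_eq_norm] at h1
      exact h1

end Pool.Agent.J4H57.GC
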